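import Pool.Agent.W_bb8127_h4.Sound
import Pool.Agent.W_bb8127_h4.Data

/-! Checking the certificates. -/

namespace PrismFam

def ixn (v : Ix) : ℕ := 2 * v.1.val + (if v.2 then 1 else 0)

def vd (i : ℕ) (v : Ix) : HP := (vtab.getD i []).getD (ixn v) 0

def fd (i : ℕ) (j : Fin 5) : HP := (ftab.getD i []).getD j.val 0

def cd (i : ℕ) (k : Fin 3) : HP := (ctab.getD i []).getD k.val 0

def pd (i j : ℕ) : ℕ × ℕ × ℕ × List (List ℤ) × List (List ℤ) :=
  (ptab.getD i []).getD (j - i - 1) (0, 0, 0, [], [])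

def wt (l : List (List ℤ)) (k : Fin 3) (v : Ix) : ℤ := (l.getD k.val []).getD (ixn v) 0

def PairGood (i j : ℕ) : Prop :=
  OkPair (vd i) (vd j) (fd i (Fin.ofNat 5 (pd i j).1)) (Fin.ofNat 3 (pd i j).2.1)
    (Fin.ofNat 3 (pd i j).2.2.1) (wt (pd i j).2.2.2.1) (wt (pd i j).2.2.2.2)

instance (i j : ℕ) : Decidable (PairGood i j) := by unfold PairGood; infer_instance

theorem all_prisms : ∀ i : Fin 24, OkPrism (vd i) (fd i) (cd i) := by
  decide +kernel

theorem all_pairs : ∀ i j : Fin 24, i < j → PairGood i j := by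
  decide +kernel

end PrismFam
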