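import Mathlib

/-! MP_bb8127_co: neighborly families of triangular prisms, definitions. -/

namespace PrismFam

open MeasureTheory

/-- Euclidean three-space. -/
abbrev E3 : Type := EuclideanSpace ℝ (Fin 3)

/-- The product of a triangle and a segment. -/
def stdPrism : Set E3 := {x | 0 ≤ x 0 ∧ 0 ≤ x 1 ∧ x 0 + x 1 ≤ 1 ∧ 0 ≤ x 2 ∧ x 2 ≤ 1}

/-- The faces of a convex set `P` (the empty face and `P` itself included), ordered by inclusion.
For a polytope every face is exposed. -/
abbrev Face (P : Set E3) : Type := {F : Set E3 // IsExposed ℝ P F}

/-- `P` is a three-dimensional convex polytope combinatorially equivalent to a triangular prism. -/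
def IsPrism (P : Set E3) : Prop :=
  (∃ V : Finset E3, P = convexHull ℝ (V : Set E3)) ∧ (interior P).Nonempty ∧
    Nonempty (Face P ≃o Face stdPrism)

/-- Pairwise disjoint interiors, and every two members meet in a set of positive two-dimensional
area (Hausdorff measure). -/
def Neighborly {ι : Type} (P : ι → Set E3) : Prop :=
  ∀ i j, i ≠ j → Disjoint (interior (P i)) (interior (P j)) ∧
    0 < Measure.hausdorffMeasure 2 (P i ∩ P j)

end PrismFam
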