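import Pool.Agent.W_bb8127_h4.Defs

/-! The face lattice of a polytope with the vertex-facet incidences of a triangular prism. -/

namespace PrismFam

/-- Vertices: `(i, false)` bottom triangle, `(i, true)` top triangle. -/
abbrev Ix : Type := Fin 3 × Bool

/-- Closed sets of vertices = vertex sets of faces. -/
def Cl (S : Finset Ix) : Prop :=
  ∀ i j : Fin 3, i ≠ j → (i, false) ∈ S → (j, true) ∈ S → (j, false) ∈ S ∧ (i, true) ∈ S

instance (S : Finset Ix) : Decidable (Cl S) := by unfold Cl; infer_instance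

/-- Incidence: facet `0` bottom, facet `1` top, facet `2 + k` opposite to the edge `k`. -/
def inc : Fin 5 → Ix → Bool
  | 0, v => !v.2
  | 1, v => v.2
  | 2, v => v.1 != 0
  | 3, v => v.1 != 1
  | 4, v => v.1 != 2

theorem cl_sep : ∀ S : Finset Ix, Cl S → S.Nonempty → ∀ v, v ∉ S →
    ∃ j, (∀ w ∈ S, inc j w = true) ∧ inc j v = false := by
  decide +kernel

variable {E : Type} [NormedAddCommGroup E] [NormedSpace ℝ E]

theorem hull_iff (V : Ix → E) (S : Finset Ix) (x : E) :
    x ∈ convexHull ℝ (V '' (S : Set Ix)) ↔ ∃ w : Ix → ℝ, (∀ v, 0 ≤ w v) ∧ (∀ v, v ∉ S → w v = 0) ∧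
      ∑ v, w v = 1 ∧ ∑ v, w v • V v = x := by
  constructor
  · intro hx
    have hsub : convexHull ℝ (V '' (S : Set Ix)) ⊆ {x | ∃ w : Ix → ℝ, (∀ v, 0 ≤ w v) ∧
        (∀ v, v ∉ S → w v = 0) ∧ ∑ v, w v = 1 ∧ ∑ v, w v • V v = x} := by
      apply convexHull_min
      · rintro _ ⟨v, hv, rfl⟩
        refine ⟨Pi.single v 1, ?_, ?_, ?_, ?_⟩
        · intro u
          by_cases h : u = v
          · subst h; simp
          · simp [Pi.single_apply, h]
        · intro u hu
          have : u ≠ v := by rintro rfl; exact hu hv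
          simp [Pi.single_apply, this]
        · simp
        · simp [Pi.single_apply]
      · rintro x ⟨w, h1, h2, h3, h4⟩ y ⟨w', h1', h2', h3', h4'⟩ a b ha hb hab
        refine ⟨fun v => a * w v + b * w' v, ?_, ?_, ?_, ?_⟩
        · intro v
          have := h1 v
          have := h1' v
          positivity
        · intro v hv
          change a * w v + b * w' v = 0
          rw [h2 v hv, h2' v hv]
          ring
        · rw [Finset.sum_add_distrib, ← Finset.mul_sum, ← Finset.mul_sum, h3, h3']
          linarith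
        · simp only [add_smul, mul_smul]
          rw [Finset.sum_add_distrib, ← Finset.smul_sum, ← Finset.smul_sum, h4, h4']
    exact hsub hx
  · rintro ⟨w, h1, h2, h3, h4⟩
    rw [← h4, ← Finset.sum_subset (Finset.subset_univ S) (fun v _ hv => by rw [h2 v hv, zero_smul])]
    rw [← Finset.sum_subset (Finset.subset_univ S) (fun v _ hv => h2 v hv)] at h3
    exact (convex_convexHull ℝ _).sum_mem (fun v _ => h1 v) h3
      (fun v hv => subset_convexHull ℝ _ ⟨v, hv, rfl⟩)

theorem hull_mono (V : Ix → E) (S : Finset Ix) :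
    convexHull ℝ (V '' (S : Set Ix)) ⊆ convexHull ℝ (Set.range V) :=
  convexHull_mono (Set.image_subset_range _ _)

theorem range_eq (V : Ix → E) : Set.range V = V '' ((Finset.univ : Finset Ix) : Set Ix) := by
  simp

theorem hull_le {V : Ix → E} (l : StrongDual ℝ E) {M : ℝ} (hM : ∀ v, l (V v) ≤ M) {x : E}
    (hx : x ∈ convexHull ℝ (Set.range V)) : l x ≤ M := by
  rw [range_eq, hull_iff] at hx
  obtain ⟨w, h1, -, h3, rfl⟩ := hx
  rw [map_sum]
  calc ∑ v, l (w v • V v) ≤ ∑ v, w v * M := by
        apply Finset.sum_le_sum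
        intro v _
        rw [map_smul, smul_eq_mul]
        exact mul_le_mul_of_nonneg_left (hM v) (h1 v)
    _ = M := by rw [← Finset.sum_mul, h3, one_mul]

theorem hull_max {V : Ix → E} (l : StrongDual ℝ E) {M : ℝ} (hM : ∀ v, l (V v) ≤ M) {x : E}
    (hx : x ∈ convexHull ℝ (Set.range V)) {S : Finset Ix} (hS : ∀ v, v ∉ S → l (V v) < M)
    (hl : l x = M) : x ∈ convexHull ℝ (V '' (S : Set Ix)) := by
  rw [range_eq, hull_iff] at hx
  obtain ⟨w, h1, -, h3, rfl⟩ := hx
  rw [hull_iff]
  refine ⟨w, h1, ?_, h3, rfl⟩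
  intro v hv
  by_contra hne
  have hpos : 0 < w v := lt_of_le_of_ne (h1 v) (Ne.symm hne)
  have : ∑ u, w u * l (V u) < ∑ u, w u * M := by
    apply Finset.sum_lt_sum
    · intro u _
      exact mul_le_mul_of_nonneg_left (hM u) (h1 u)
    · exact ⟨v, Finset.mem_univ v, mul_lt_mul_of_pos_left (hS v hv) hpos⟩
  rw [← Finset.sum_mul, h3, one_mul] at this
  rw [map_sum] at hl
  simp only [map_smul, smul_eq_mul] at hl
  linarith

/-- Data making a polytope a combinatorial prism. -/
structure PData (V : Ix → E) : Prop where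
  fac : ∀ j : Fin 5, ∃ (f : StrongDual ℝ E) (c : ℝ), ∀ v, f (V v) ≤ c ∧ (f (V v) = c ↔ inc j v = true)
  cross : ∀ i j : Fin 3, i ≠ j → ∃ z, z ∈ openSegment ℝ (V (i, false)) (V (j, true)) ∧
    z ∈ openSegment ℝ (V (j, false)) (V (i, true))

open Classical in
/-- Vertex set of a face. -/
noncomputable def vs (V : Ix → E) (F : Set E) : Finset Ix := Finset.univ.filter (fun v => V v ∈ F)

theorem mem_vs {V : Ix → E} {F : Set E} {v : Ix} : v ∈ vs V F ↔ V v ∈ F := by
  simp [vs]

theorem mem_hull (V : Ix → E) (v : Ix) : V v ∈ convexHull ℝ (Set.range V) :=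
  subset_convexHull ℝ _ ⟨v, rfl⟩

theorem face_eq {V : Ix → E} {F : Set E} (hF : IsExposed ℝ (convexHull ℝ (Set.range V)) F) :
    F = convexHull ℝ (V '' (vs V F : Set Ix)) := by
  apply Set.Subset.antisymm
  · intro x hx
    obtain ⟨l, hl⟩ := hF ⟨x, hx⟩
    have hx' := hx
    rw [hl] at hx'
    obtain ⟨hx1, hx2⟩ := hx'
    refine hull_max l (M := l x) (fun v => hx2 _ (mem_hull V v)) hx1 ?_ rfl
    intro v hv
    refine lt_of_le_of_ne (hx2 _ (mem_hull V v)) ?_
    intro he
    apply hv
    rw [mem_vs, hl]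
    exact ⟨mem_hull V v, fun y hy => by rw [he]; exact hx2 y hy⟩
  · apply convexHull_min
    · rintro _ ⟨v, hv, rfl⟩
      exact mem_vs.1 hv
    · exact hF.convex (convex_convexHull ℝ _)

theorem face_cl {V : Ix → E} (D : PData V) {F : Set E}
    (hF : IsExposed ℝ (convexHull ℝ (Set.range V)) F) : Cl (vs V F) := by
  intro i j hij h1 h2
  obtain ⟨z, hz1, hz2⟩ := D.cross i j hij
  have hz : z ∈ F := (hF.convex (convex_convexHull ℝ _)).openSegment_subset (mem_vs.1 h1)
    (mem_vs.1 h2) hz1
  have he := hF.isExtreme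
  have e1 := he.left_mem_of_mem_openSegment (mem_hull V (j, false)) (mem_hull V (i, true)) hz hz2
  have e2 := he.left_mem_of_mem_openSegment (mem_hull V (i, true)) (mem_hull V (j, false)) hz
    (by rw [openSegment_symm]; exact hz2)
  exact ⟨mem_vs.2 e1, mem_vs.2 e2⟩

theorem cl_face {V : Ix → E} (D : PData V) {S : Finset Ix} (hS : Cl S) :
    IsExposed ℝ (convexHull ℝ (Set.range V)) (convexHull ℝ (V '' (S : Set Ix))) ∧
      vs V (convexHull ℝ (V '' (S : Set Ix))) = S := by
  classical
  rcases S.eq_empty_or_nonempty with rfl | hne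
  · constructor
    · simp only [Finset.coe_empty, Set.image_empty, convexHull_empty]
      exact isExposed_empty
    · ext v
      simp [mem_vs]
  · choose f c hf using D.fac
    set J : Finset (Fin 5) := Finset.univ.filter (fun j => ∀ w ∈ S, inc j w = true) with hJ
    set l : StrongDual ℝ E := ∑ j ∈ J, f j with hl
    have hle : ∀ v, l (V v) ≤ ∑ j ∈ J, c j := by
      intro v
      rw [hl, _root_.sum_apply]
      exact Finset.sum_le_sum (fun j _ => (hf j v).1)
    have hin : ∀ v ∈ S, l (V v) = ∑ j ∈ J, c j := by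
      intro v hv
      rw [hl, _root_.sum_apply]
      apply Finset.sum_congr rfl
      intro j hj
      exact (hf j v).2.2 ((Finset.mem_filter.1 hj).2 v hv)
    have hout : ∀ v, v ∉ S → l (V v) < ∑ j ∈ J, c j := by
      intro v hv
      obtain ⟨j, hj1, hj2⟩ := cl_sep S hS hne v hv
      rw [hl, _root_.sum_apply]
      apply Finset.sum_lt_sum (fun j _ => (hf j v).1)
      refine ⟨j, Finset.mem_filter.2 ⟨Finset.mem_univ _, hj1⟩, lt_of_le_of_ne (hf j v).1 ?_⟩
      intro he
      rw [(hf j v).2.1 he] at hj2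
      simp at hj2
    have hconst : ∀ x ∈ convexHull ℝ (V '' (S : Set Ix)), l x = ∑ j ∈ J, c j := by
      intro x hx
      rw [hull_iff] at hx
      obtain ⟨w, -, h2, h3, rfl⟩ := hx
      rw [map_sum]
      have : ∀ v, l (w v • V v) = w v * ∑ j ∈ J, c j := by
        intro v
        rw [map_smul, smul_eq_mul]
        by_cases hv : v ∈ S
        · rw [hin v hv]
        · rw [h2 v hv]; ring
      rw [Finset.sum_congr rfl (fun v _ => this v), ← Finset.sum_mul, h3, one_mul]
    constructor
    · intro _
      refine ⟨l, ?_⟩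
      apply Set.Subset.antisymm
      · intro x hx
        refine ⟨hull_mono V S hx, fun y hy => ?_⟩
        rw [hconst x hx]
        exact hull_le l hle hy
      · rintro x ⟨hx1, hx2⟩
        obtain ⟨v, hv⟩ := hne
        have h1 := hx2 _ (mem_hull V v)
        rw [hin v hv] at h1
        exact hull_max l hle hx1 hout (le_antisymm (hull_le l hle hx1) h1)
    · ext v
      rw [mem_vs]
      constructor
      · intro h
        by_contra hv
        have := hout v hv
        rw [hconst _ h] at this
        exact lt_irrefl _ this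
      · intro hv
        exact subset_convexHull ℝ _ ⟨v, hv, rfl⟩

/-- The face lattice of a combinatorial prism. -/
noncomputable def faceIso {V : Ix → E} (D : PData V) :
    {F : Set E // IsExposed ℝ (convexHull ℝ (Set.range V)) F} ≃o {S : Finset Ix // Cl S} where
  toFun F := ⟨vs V F.1, face_cl D F.2⟩
  invFun S := ⟨convexHull ℝ (V '' (S.1 : Set Ix)), (cl_face D S.2).1⟩
  left_inv F := Subtype.ext (face_eq F.2).symm
  right_inv S := Subtype.ext (cl_face D S.2).2
  map_rel_iff' := by
    intro F G
    constructor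
    · intro h
      change F.1 ⊆ G.1
      rw [face_eq F.2, face_eq G.2]
      exact convexHull_mono (Set.image_mono h)
    · intro h v hv
      exact mem_vs.2 (h (mem_vs.1 hv))

end PrismFam
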