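import Pool.Agent.W_bb8127_h4.Defs

/-! Positive area. -/

namespace PrismFam

open MeasureTheory

/-- Projection to two coordinates. -/
def pr (a b : Fin 3) (x : E3) : Fin 2 → ℝ := ![x a, x b]

theorem pr_lip (a b : Fin 3) : LipschitzWith 1 (pr a b) := by
  apply LipschitzWith.of_dist_le_mul
  intro x y
  rw [NNReal.coe_one, one_mul, dist_pi_le_iff dist_nonneg]
  have key : ∀ c : Fin 3, dist (x c) (y c) ≤ dist x y := by
    intro c
    rw [Real.dist_eq, EuclideanSpace.dist_eq]
    apply Real.abs_le_sqrt
    have h := Finset.single_le_sum (f := fun i => dist (x i) (y i) ^ 2)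
      (fun i _ => sq_nonneg _) (Finset.mem_univ c)
    simpa [Real.dist_eq, sq_abs] using h
  intro i
  fin_cases i
  · exact key a
  · exact key b

theorem area_pos {S : Set E3} (hS : Convex ℝ S) (p : Fin 3 → E3) (hp : ∀ k, p k ∈ S) (a b : Fin 3)
    (hdet : (p 1 a - p 0 a) * (p 2 b - p 0 b) - (p 1 b - p 0 b) * (p 2 a - p 0 a) ≠ 0) :
    0 < Measure.hausdorffMeasure 2 S := by
  set T : Set (Fin 2 → ℝ) := convexHull ℝ (Set.range fun k => pr a b (p k)) with hT
  have hint : (interior T).Nonempty := by
    rw [hT, interior_convexHull_nonempty_iff_affineSpan_eq_top,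
      AffineSubspace.affineSpan_eq_top_iff_vectorSpan_eq_top_of_nonempty _ _ _
        (Set.range_nonempty _)]
    set u : Fin 2 → (Fin 2 → ℝ) := ![pr a b (p 1) - pr a b (p 0), pr a b (p 2) - pr a b (p 0)]
      with hu
    have hli : LinearIndependent ℝ u := by
      rw [Fintype.linearIndependent_iff]
      intro g hg
      rw [Fin.sum_univ_two] at hg
      have e0 := congrFun hg 0
      have e1 := congrFun hg 1
      simp only [hu, pr, Pi.add_apply, Pi.smul_apply, Pi.sub_apply, smul_eq_mul, Pi.zero_apply,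
        Matrix.cons_val_zero, Matrix.cons_val_one] at e0 e1
      have g0 : g 0 = 0 := by
        have : g 0 * ((p 1 a - p 0 a) * (p 2 b - p 0 b) - (p 1 b - p 0 b) * (p 2 a - p 0 a)) = 0 := by
          linear_combination (p 2 b - p 0 b) * e0 - (p 2 a - p 0 a) * e1
        exact (mul_eq_zero.1 this).resolve_right hdet
      have g1 : g 1 = 0 := by
        have : g 1 * ((p 1 a - p 0 a) * (p 2 b - p 0 b) - (p 1 b - p 0 b) * (p 2 a - p 0 a)) = 0 := by
          linear_combination (p 1 a - p 0 a) * e1 - (p 1 b - p 0 b) * e0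
        exact (mul_eq_zero.1 this).resolve_right hdet
      intro i
      fin_cases i
      · exact g0
      · exact g1
    have htop := hli.span_eq_top_of_card_eq_finrank' (by simp)
    rw [eq_top_iff, ← htop]
    apply Submodule.span_le.2
    rintro _ ⟨i, rfl⟩
    fin_cases i
    · exact vsub_mem_vectorSpan ℝ ⟨1, rfl⟩ ⟨0, rfl⟩
    · exact vsub_mem_vectorSpan ℝ ⟨2, rfl⟩ ⟨0, rfl⟩
  have hlin : IsLinearMap ℝ (pr a b) := by
    constructor
    · intro x y
      ext i
      fin_cases i <;> simp [pr]
    · intro c x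
      ext i
      fin_cases i <;> simp [pr]
  have hsub : T ⊆ pr a b '' S := by
    apply convexHull_min
    · rintro _ ⟨k, rfl⟩
      exact ⟨p k, hp k, rfl⟩
    · exact hS.is_linear_image hlin
  have hpos : 0 < (volume : Measure (Fin 2 → ℝ)) T :=
    lt_of_lt_of_le (isOpen_interior.measure_pos volume hint) (measure_mono interior_subset)
  have h2 : (Measure.hausdorffMeasure 2 : Measure (Fin 2 → ℝ)) = volume := by
    rw [← hausdorffMeasure_pi_real]
    simp
  have h3 := (pr_lip a b).hausdorffMeasure_image_le (d := 2) (by norm_num) S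
  rw [h2] at h3
  simp only [ENNReal.coe_one, ENNReal.one_rpow, one_mul] at h3
  exact lt_of_lt_of_le (lt_of_lt_of_le hpos (measure_mono hsub)) h3

end PrismFam
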