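import Pool.Agent.W_bb8127_h4.Std
import Pool.Agent.W_bb8127_h4.Meas

/-! Soundness of integer certificates. -/

namespace PrismFam

open MeasureTheory

/-- Homogeneous integer coordinates. -/
abbrev HP : Type := ℤ × ℤ × ℤ × ℤ

def ev (f p : HP) : ℤ := f.1 * p.1 + f.2.1 * p.2.1 + f.2.2.1 * p.2.2.1 + f.2.2.2 * p.2.2.2

def co (p : HP) : Fin 3 → ℤ
  | 0 => p.1
  | 1 => p.2.1
  | 2 => p.2.2.1

noncomputable def pt (p : HP) : E3 := WithLp.toLp 2 (fun k => (co p k : ℝ) / (p.2.2.2 : ℝ))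

theorem pt_apply (p : HP) (k : Fin 3) : pt p k = (co p k : ℝ) / (p.2.2.2 : ℝ) := rfl

noncomputable def ff (f : HP) : StrongDual ℝ E3 := fn f.1 f.2.1 f.2.2.1

theorem ff_pt (f p : HP) (hp : 0 < p.2.2.2) :
    ff f (pt p) + f.2.2.2 = (ev f p : ℝ) / (p.2.2.2 : ℝ) := by
  have h : (p.2.2.2 : ℝ) ≠ 0 := by exact_mod_cast hp.ne'
  rw [ff, fn_apply, pt_apply, pt_apply, pt_apply]
  simp only [co, ev]
  push_cast
  field_simp

theorem ff_le_iff (f p : HP) (hp : 0 < p.2.2.2) : ff f (pt p) ≤ -(f.2.2.2 : ℝ) ↔ ev f p ≤ 0 := by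
  have h0 := ff_pt f p hp
  have h : (0 : ℝ) < p.2.2.2 := by exact_mod_cast hp
  constructor
  · intro h1
    have h2 : (ev f p : ℝ) / (p.2.2.2 : ℝ) ≤ 0 := by linarith
    rw [div_le_iff₀ h, zero_mul] at h2
    exact_mod_cast h2
  · intro h1
    have h2 : (ev f p : ℝ) / (p.2.2.2 : ℝ) ≤ 0 := by
      rw [div_le_iff₀ h, zero_mul]
      exact_mod_cast h1
    linarith

theorem ff_ge_iff (f p : HP) (hp : 0 < p.2.2.2) : -(f.2.2.2 : ℝ) ≤ ff f (pt p) ↔ 0 ≤ ev f p := by
  have h0 := ff_pt f p hp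
  have h : (0 : ℝ) < p.2.2.2 := by exact_mod_cast hp
  constructor
  · intro h1
    have h2 : 0 ≤ (ev f p : ℝ) / (p.2.2.2 : ℝ) := by linarith
    rw [le_div_iff₀ h, zero_mul] at h2
    exact_mod_cast h2
  · intro h1
    have h2 : 0 ≤ (ev f p : ℝ) / (p.2.2.2 : ℝ) := by
      rw [le_div_iff₀ h, zero_mul]
      exact_mod_cast h1
    linarith

/-- Sum of six multiples. -/
def comb (w : Ix → ℤ) (V : Ix → HP) : HP :=
  w (0, false) • V (0, false) + w (0, true) • V (0, true) + w (1, false) • V (1, false) +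
    w (1, true) • V (1, true) + w (2, false) • V (2, false) + w (2, true) • V (2, true)

theorem comb_eq (w : Ix → ℤ) (V : Ix → HP) : comb w V = ∑ v, w v • V v := by
  rw [Fintype.sum_prod_type]
  simp [Fin.sum_univ_three, comb]
  abel

theorem co_add (p q : HP) (k : Fin 3) : co (p + q) k = co p k + co q k := by
  fin_cases k <;> rfl

theorem co_smul (a : ℤ) (p : HP) (k : Fin 3) : co (a • p) k = a * co p k := by
  fin_cases k <;> rfl

theorem co_sum (w : Ix → ℤ) (V : Ix → HP) (k : Fin 3) :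
    co (∑ v, w v • V v) k = ∑ v, w v * co (V v) k := by
  have h : ∀ s : Finset Ix, co (∑ v ∈ s, w v • V v) k = ∑ v ∈ s, w v * co (V v) k := by
    intro s
    classical
    induction s using Finset.induction_on with
    | empty => fin_cases k <;> rfl
    | insert a s ha ih => rw [Finset.sum_insert ha, Finset.sum_insert ha, co_add, co_smul, ih]
  exact h _

theorem w_sum (w : Ix → ℤ) (V : Ix → HP) :
    (∑ v, w v • V v).2.2.2 = ∑ v, w v * (V v).2.2.2 := by
  have h : ∀ s : Finset Ix, (∑ v ∈ s, w v • V v).2.2.2 = ∑ v ∈ s, w v * (V v).2.2.2 := by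
    intro s
    classical
    induction s using Finset.induction_on with
    | empty => rfl
    | insert a s ha ih =>
      rw [Finset.sum_insert ha, Finset.sum_insert ha, ← ih]
      rfl
  exact h _

theorem comb_mem (w : Ix → ℤ) (V : Ix → HP) (hw : ∀ v, 0 ≤ w v) (hV : ∀ v, 0 < (V v).2.2.2)
    (hpos : 0 < (comb w V).2.2.2) :
    pt (comb w V) ∈ convexHull ℝ (Set.range fun v => pt (V v)) := by
  rw [comb_eq] at hpos ⊢
  set W : ℤ := (∑ v, w v • V v).2.2.2 with hW
  have hWr : (0 : ℝ) < W := by exact_mod_cast hpos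
  rw [range_eq (fun v => pt (V v)), hull_iff]
  refine ⟨fun v => (w v : ℝ) * (V v).2.2.2 / W, ?_, ?_, ?_, ?_⟩
  · intro v
    have h1 : (0 : ℝ) ≤ w v := by exact_mod_cast hw v
    have h2 : (0 : ℝ) < (V v).2.2.2 := by exact_mod_cast hV v
    positivity
  · intro v hv
    exact absurd (Finset.mem_univ v) hv
  · rw [← Finset.sum_div]
    have : (W : ℝ) = ∑ v, (w v : ℝ) * (V v).2.2.2 := by
      rw [hW, w_sum]
      push_cast
      rfl
    rw [← this]
    exact div_self hWr.ne'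
  · ext k
    rw [pt_apply, co_sum, ← hW]
    have h1 : (∑ v, ((w v : ℝ) * (V v).2.2.2 / W) • pt (V v)) k =
        ∑ v, ((w v : ℝ) * (V v).2.2.2 / W) * pt (V v) k := by
      simp
    rw [h1]
    push_cast
    rw [Finset.sum_div]
    apply Finset.sum_congr rfl
    intro v _
    rw [pt_apply]
    have h2 : ((V v).2.2.2 : ℝ) ≠ 0 := by exact_mod_cast (hV v).ne'
    field_simp

/-- Two-point combination. -/
theorem pt_openSegment (a b : ℤ) (p q : HP) (ha : 0 < a) (hb : 0 < b) (hp : 0 < p.2.2.2)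
    (hq : 0 < q.2.2.2) : pt (a • p + b • q) ∈ openSegment ℝ (pt p) (pt q) := by
  have ha' : (0 : ℝ) < a := by exact_mod_cast ha
  have hb' : (0 : ℝ) < b := by exact_mod_cast hb
  have hp' : (0 : ℝ) < p.2.2.2 := by exact_mod_cast hp
  have hq' : (0 : ℝ) < q.2.2.2 := by exact_mod_cast hq
  have hW : (0 : ℝ) < a * p.2.2.2 + b * q.2.2.2 := by positivity
  refine ⟨a * p.2.2.2 / (a * p.2.2.2 + b * q.2.2.2), b * q.2.2.2 / (a * p.2.2.2 + b * q.2.2.2),
    by positivity, by positivity, ?_, ?_⟩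
  · rw [← add_div, div_self hW.ne']
  · ext k
    simp only [PiLp.add_apply, PiLp.smul_apply, smul_eq_mul, pt_apply, co_add, co_smul]
    have : ((a • p + b • q).2.2.2 : ℝ) = a * p.2.2.2 + b * q.2.2.2 := by
      have h1 : (a • p + b • q).2.2.2 = a * p.2.2.2 + b * q.2.2.2 := rfl
      rw [h1]
      push_cast
      rfl
    rw [this]
    push_cast
    field_simp

/-- Integer certificate for a prism. -/
def OkPrism (V : Ix → HP) (f : Fin 5 → HP) (c : Fin 3 → HP) : Prop :=
  (∀ v, 0 < (V v).2.2.2) ∧ (∀ j v, ev (f j) (V v) ≤ 0 ∧ (ev (f j) (V v) = 0 ↔ inc j v = true)) ∧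
  ∀ k : Fin 3, 0 < (c k).1 ∧ 0 < (c k).2.1 ∧ 0 < (c k).2.2.1 ∧ 0 < (c k).2.2.2 ∧
    (c k).1 • V (k, false) + (c k).2.1 • V (k + 1, true) =
      (c k).2.2.1 • V (k + 1, false) + (c k).2.2.2 • V (k, true)

instance (V : Ix → HP) (f : Fin 5 → HP) (c : Fin 3 → HP) : Decidable (OkPrism V f c) := by
  unfold OkPrism; infer_instance

theorem ok_data {V : Ix → HP} {f : Fin 5 → HP} {c : Fin 3 → HP} (h : OkPrism V f c) :
    PData (fun v => pt (V v)) := by
  obtain ⟨hW, hf, hc⟩ := h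
  constructor
  · intro j
    refine ⟨ff (f j), -((f j).2.2.2 : ℝ), fun v => ⟨(ff_le_iff _ _ (hW v)).2 (hf j v).1, ?_⟩⟩
    rw [← (hf j v).2]
    constructor
    · intro h
      exact le_antisymm (hf j v).1 ((ff_ge_iff _ _ (hW v)).1 h.ge)
    · intro h
      exact le_antisymm ((ff_le_iff _ _ (hW v)).2 h.le) ((ff_ge_iff _ _ (hW v)).2 h.ge)
  · have key : ∀ k : Fin 3, ∃ z, z ∈ openSegment ℝ (pt (V (k, false))) (pt (V (k + 1, true))) ∧
        z ∈ openSegment ℝ (pt (V (k + 1, false))) (pt (V (k, true))) := by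
      intro k
      obtain ⟨h1, h2, h3, h4, h5⟩ := hc k
      refine ⟨pt ((c k).1 • V (k, false) + (c k).2.1 • V (k + 1, true)),
        pt_openSegment _ _ _ _ h1 h2 (hW _) (hW _), ?_⟩
      rw [h5]
      exact pt_openSegment _ _ _ _ h3 h4 (hW _) (hW _)
    have hcase : ∀ i j : Fin 3, i ≠ j → j = i + 1 ∨ i = j + 1 := by decide
    intro i j hij
    rcases hcase i j hij with rfl | rfl
    · exact key i
    · obtain ⟨z, hz1, hz2⟩ := key j
      refine ⟨z, ?_, ?_⟩
      · exact hz2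
      · exact hz1

/-- Integer certificate for a contact of two prisms; `w`, `w'` give three common points. -/
def OkPair (V V' : Ix → HP) (g : HP) (a b : Fin 3) (w w' : Fin 3 → Ix → ℤ) : Prop :=
  (∀ v, 0 ≤ ev g (V' v)) ∧ (∀ k v, 0 ≤ w k v ∧ 0 ≤ w' k v) ∧
  (∀ k, comb (w k) V = comb (w' k) V' ∧ 0 < (comb (w k) V).2.2.2) ∧
  (fun (p q r : HP) =>
    (co q a * p.2.2.2 - co p a * q.2.2.2) * (co r b * p.2.2.2 - co p b * r.2.2.2) -
    (co q b * p.2.2.2 - co p b * q.2.2.2) * (co r a * p.2.2.2 - co p a * r.2.2.2) ≠ 0)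
    (comb (w 0) V) (comb (w 1) V) (comb (w 2) V)

instance (V V' : Ix → HP) (g : HP) (a b : Fin 3) (w w' : Fin 3 → Ix → ℤ) :
    Decidable (OkPair V V' g a b w w') := by
  unfold OkPair; infer_instance

theorem interior_half {f : StrongDual ℝ E3} (hf : f ≠ 0) (c : ℝ) :
    interior {x | f x ≤ c} = {x | f x < c} ∧ interior {x | c ≤ f x} = {x | c < f x} := by
  have hs : Function.Surjective f := by
    have h0 : ∃ x, f x ≠ 0 := by
      by_contra hcon
      push Not at hcon
      exact hf (ContinuousLinearMap.ext hcon)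
    obtain ⟨x, hx⟩ := h0
    intro y
    refine ⟨(y / f x) • x, ?_⟩
    rw [map_smul, smul_eq_mul]
    field_simp
  constructor
  · have h1 := f.interior_preimage hs (Set.Iic c)
    rw [interior_Iic] at h1
    exact h1
  · have h1 := f.interior_preimage hs (Set.Ici c)
    rw [interior_Ici] at h1
    exact h1

theorem inc_true : ∀ j, ∃ v, inc j v = true := by decide

theorem inc_false : ∀ j, ∃ v, inc j v = false := by decide

theorem ok_pair {V V' : Ix → HP} {f : Fin 5 → HP} {c : Fin 3 → HP} (h : OkPrism V f c)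
    (hV' : ∀ v, 0 < (V' v).2.2.2) (j : Fin 5) {a b : Fin 3} {w w' : Fin 3 → Ix → ℤ}
    (hp : OkPair V V' (f j) a b w w') :
    Disjoint (interior (convexHull ℝ (Set.range fun v => pt (V v))))
      (interior (convexHull ℝ (Set.range fun v => pt (V' v)))) ∧
    0 < Measure.hausdorffMeasure 2 (convexHull ℝ (Set.range fun v => pt (V v)) ∩
      convexHull ℝ (Set.range fun v => pt (V' v))) := by
  obtain ⟨hW, hf, hc⟩ := h
  obtain ⟨h1, h2, h3, h4⟩ := hp
  constructor
  · have hne : ff (f j) ≠ 0 := by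
      intro h0
      obtain ⟨u, hu⟩ := inc_true j
      obtain ⟨v, hv⟩ := inc_false j
      have e1 := ff_pt (f j) (V u) (hW u)
      have e2 := ff_pt (f j) (V v) (hW v)
      rw [(hf j u).2.2 hu, h0] at e1
      rw [h0] at e2
      have h5 : ev (f j) (V v) ≠ 0 := by
        intro h6
        rw [(hf j v).2.1 h6] at hv
        simp at hv
      have h6 : ((V v).2.2.2 : ℝ) ≠ 0 := by exact_mod_cast (hW v).ne'
      have h7 : ((ev (f j) (V v) : ℤ) : ℝ) ≠ 0 := by exact_mod_cast h5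
      simp only [_root_.zero_apply, zero_add, Int.cast_zero, zero_div] at e1 e2
      rw [e1] at e2
      exact (div_ne_zero h7 h6) e2.symm
    obtain ⟨hi1, hi2⟩ := interior_half hne (-((f j).2.2.2 : ℝ))
    have hs1 : convexHull ℝ (Set.range fun v => pt (V v)) ⊆ {x | ff (f j) x ≤ -((f j).2.2.2 : ℝ)} :=
      fun x hx => hull_le (ff (f j)) (fun v => (ff_le_iff _ _ (hW v)).2 (hf j v).1) hx
    have hs2 : convexHull ℝ (Set.range fun v => pt (V' v)) ⊆ {x | -((f j).2.2.2 : ℝ) ≤ ff (f j) x} := by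
      intro x hx
      have := hull_le (V := fun v => pt (V' v)) (-(ff (f j))) (M := ((f j).2.2.2 : ℝ)) (fun v => by
        have := (ff_ge_iff (f j) (V' v) (hV' v)).2 (h1 v)
        rw [_root_.neg_apply]
        linarith) hx
      rw [_root_.neg_apply] at this
      change -((f j).2.2.2 : ℝ) ≤ ff (f j) x
      linarith
    have hd1 := interior_mono hs1
    have hd2 := interior_mono hs2
    rw [hi1] at hd1
    rw [hi2] at hd2
    rw [Set.disjoint_left]
    intro x hx hx'
    have e1 := hd1 hx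
    have e2 := hd2 hx'
    simp only [Set.mem_ofPred_eq] at e1 e2
    linarith
  · have hpos : ∀ k, (0 : ℝ) < (comb (w k) V).2.2.2 := fun k => by exact_mod_cast (h3 k).2
    apply area_pos ((convex_convexHull ℝ _).inter (convex_convexHull ℝ _))
      (fun k => pt (comb (w k) V)) ?_ a b
    · have hp0 := (hpos 0).ne'
      have hp1 := (hpos 1).ne'
      have hp2 := (hpos 2).ne'
      simp only [pt_apply]
      have h5 : ((((co (comb (w 1) V) a * (comb (w 0) V).2.2.2 - co (comb (w 0) V) a * (comb (w 1) V).2.2.2) *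
        (co (comb (w 2) V) b * (comb (w 0) V).2.2.2 - co (comb (w 0) V) b * (comb (w 2) V).2.2.2) -
        (co (comb (w 1) V) b * (comb (w 0) V).2.2.2 - co (comb (w 0) V) b * (comb (w 1) V).2.2.2) *
        (co (comb (w 2) V) a * (comb (w 0) V).2.2.2 - co (comb (w 0) V) a * (comb (w 2) V).2.2.2) : ℤ)) : ℝ) ≠ 0 := by
        exact_mod_cast h4
      push_cast at h5
      intro h6
      apply h5
      field_simp at h6
      linear_combination h6
    · intro k
      refine ⟨comb_mem _ _ (fun v => (h2 k v).1) hW (h3 k).2, ?_⟩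
      rw [(h3 k).1]
      exact comb_mem _ _ (fun v => (h2 k v).2) hV' (by rw [← (h3 k).1]; exact (h3 k).2)

end PrismFam
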