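import Pool.Agent.W_bb8127_h4.Face

/-! The standard prism. -/

namespace PrismFam

/-- Vertices of the standard prism. -/
noncomputable def stdV : Ix → E3
  | (i, b) => WithLp.toLp 2 ![if i = 1 then 1 else 0, if i = 2 then 1 else 0, if b then 1 else 0]

/-- A linear functional. -/
noncomputable def fn (a b c : ℝ) : StrongDual ℝ E3 :=
  a • EuclideanSpace.proj (0 : Fin 3) + b • EuclideanSpace.proj (1 : Fin 3) +
    c • EuclideanSpace.proj (2 : Fin 3)

theorem fn_apply (a b c : ℝ) (x : E3) : fn a b c x = a * x 0 + b * x 1 + c * x 2 := by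
  simp [fn]

theorem stdData : PData stdV := by
  constructor
  · intro j
    fin_cases j
    · refine ⟨fn 0 0 (-1), 0, ?_⟩
      rintro ⟨i, b⟩
      rw [fn_apply]
      fin_cases i <;> cases b <;> simp [stdV, inc]
    · refine ⟨fn 0 0 1, 1, ?_⟩
      rintro ⟨i, b⟩
      rw [fn_apply]
      fin_cases i <;> cases b <;> simp [stdV, inc]
    · refine ⟨fn 1 1 0, 1, ?_⟩
      rintro ⟨i, b⟩
      rw [fn_apply]
      fin_cases i <;> cases b <;> simp [stdV, inc]
    · refine ⟨fn (-1) 0 0, 0, ?_⟩
      rintro ⟨i, b⟩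
      rw [fn_apply]
      fin_cases i <;> cases b <;> simp [stdV, inc]
    · refine ⟨fn 0 (-1) 0, 0, ?_⟩
      rintro ⟨i, b⟩
      rw [fn_apply]
      fin_cases i <;> cases b <;> simp [stdV, inc]
  · intro i j hij
    refine ⟨(1 / 2 : ℝ) • stdV (i, false) + (1 / 2 : ℝ) • stdV (j, true),
      ⟨1 / 2, 1 / 2, by norm_num, by norm_num, by norm_num, rfl⟩,
      ⟨1 / 2, 1 / 2, by norm_num, by norm_num, by norm_num, ?_⟩⟩
    ext k
    fin_cases k
    · simp [stdV]; ring
    · simp [stdV]; ring
    · simp [stdV]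

theorem stdPrism_eq : stdPrism = convexHull ℝ (Set.range stdV) := by
  apply Set.Subset.antisymm
  · rintro x ⟨h0, h1, h01, h2, h3⟩
    rw [range_eq, hull_iff]
    refine ⟨fun v => (if v.1 = 0 then 1 - x 0 - x 1 else if v.1 = 1 then x 0 else x 1) *
      (if v.2 then x 2 else 1 - x 2), ?_, ?_, ?_, ?_⟩
    · rintro ⟨i, b⟩
      apply mul_nonneg
      · fin_cases i <;> simp <;> linarith
      · cases b <;> simp <;> linarith
    · intro v hv
      exact absurd (Finset.mem_univ v) hv
    · rw [Fintype.sum_prod_type]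
      simp [Fin.sum_univ_three]
      ring
    · rw [Fintype.sum_prod_type]
      ext k
      fin_cases k
      · simp [Fin.sum_univ_three, stdV]
        ring
      · simp [Fin.sum_univ_three, stdV]
        ring
      · simp [Fin.sum_univ_three, stdV]
        ring
  · apply convexHull_min
    · rintro _ ⟨⟨i, b⟩, rfl⟩
      fin_cases i <;> cases b <;> simp [stdPrism, stdV]
    · rintro x ⟨h0, h1, h01, h2, h3⟩ y ⟨g0, g1, g01, g2, g3⟩ a b ha hb hab
      refine ⟨?_, ?_, ?_, ?_, ?_⟩ <;> simp only [PiLp.add_apply, PiLp.smul_apply, smul_eq_mul] <;>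
        nlinarith

theorem isPrism_of {V : Ix → E3} (D : PData V)
    (h : (interior (convexHull ℝ (Set.range V))).Nonempty) :
    IsPrism (convexHull ℝ (Set.range V)) := by
  classical
  refine ⟨⟨Finset.univ.image V, by simp⟩, h, ?_⟩
  rw [stdPrism_eq]
  exact ⟨(faceIso D).trans (faceIso stdData).symm⟩

theorem interior_of_data {V : Ix → E3} (D : PData V) :
    (interior (convexHull ℝ (Set.range V))).Nonempty := by
  rw [interior_convexHull_nonempty_iff_affineSpan_eq_top]
  rw [AffineSubspace.affineSpan_eq_top_iff_vectorSpan_eq_top_of_nonempty _ _ _ (Set.range_nonempty V)]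
  set u : Fin 3 → E3 := ![V (1, false) - V (0, false), V (2, false) - V (0, false),
    V (0, true) - V (0, false)] with hu
  have hli : LinearIndependent ℝ u := by
    rw [Fintype.linearIndependent_iff]
    intro g hg
    rw [Fin.sum_univ_three] at hg
    obtain ⟨f3, c3, h3⟩ := D.fac 3
    obtain ⟨f4, c4, h4⟩ := D.fac 4
    obtain ⟨f0, c0, h0⟩ := D.fac 0
    have hg' : g 0 • (V (1, false) - V (0, false)) + g 1 • (V (2, false) - V (0, false)) +
      g 2 • (V (0, true) - V (0, false)) = 0 := hg
    have e3 := congrArg f3 hg'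
    have e4 := congrArg f4 hg'
    have e0 := congrArg f0 hg'
    simp only [map_add, map_smul, map_sub, smul_eq_mul, map_zero] at e3 e4 e0
    have a1 := (h3 (0, false)).2.2 rfl
    have a2 := (h3 (2, false)).2.2 rfl
    have a3 := (h3 (0, true)).2.2 rfl
    have a4 : f3 (V (1, false)) ≠ c3 := fun h => by
      have := (h3 (1, false)).2.1 h
      simp [inc] at this
    have b1 := (h4 (0, false)).2.2 rfl
    have b2 := (h4 (1, false)).2.2 rfl
    have b3 := (h4 (0, true)).2.2 rfl
    have b4 : f4 (V (2, false)) ≠ c4 := fun h => by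
      have := (h4 (2, false)).2.1 h
      simp [inc] at this
    have d1 := (h0 (0, false)).2.2 rfl
    have d2 := (h0 (1, false)).2.2 rfl
    have d3 := (h0 (2, false)).2.2 rfl
    have d4 : f0 (V (0, true)) ≠ c0 := fun h => by
      have := (h0 (0, true)).2.1 h
      simp [inc] at this
    rw [a1, a2, a3] at e3
    rw [b1, b2, b3] at e4
    rw [d1, d2, d3] at e0
    have g0 : g 0 = 0 := by
      have : g 0 * (f3 (V (1, false)) - c3) = 0 := by linarith
      rcases mul_eq_zero.1 this with h | h
      · exact h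
      · exact absurd (sub_eq_zero.1 h) a4
    have g1 : g 1 = 0 := by
      have : g 1 * (f4 (V (2, false)) - c4) = 0 := by linarith
      rcases mul_eq_zero.1 this with h | h
      · exact h
      · exact absurd (sub_eq_zero.1 h) b4
    have g2 : g 2 = 0 := by
      have : g 2 * (f0 (V (0, true)) - c0) = 0 := by linarith
      rcases mul_eq_zero.1 this with h | h
      · exact h
      · exact absurd (sub_eq_zero.1 h) d4
    intro i
    fin_cases i
    · exact g0
    · exact g1
    · exact g2
  have htop := hli.span_eq_top_of_card_eq_finrank' (by simp)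
  rw [eq_top_iff, ← htop]
  apply Submodule.span_le.2
  rintro _ ⟨i, rfl⟩
  fin_cases i
  · exact vsub_mem_vectorSpan ℝ ⟨_, rfl⟩ ⟨_, rfl⟩
  · exact vsub_mem_vectorSpan ℝ ⟨_, rfl⟩ ⟨_, rfl⟩
  · exact vsub_mem_vectorSpan ℝ ⟨_, rfl⟩ ⟨_, rfl⟩

end PrismFam
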